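import Pool.Agent.helper84.ZD.SpecA

set_option autoImplicit false

open Complex MeasureTheory

namespace Pool.Agent.ZD

open Pool.Agent.helper84.DM Pool.Agent.helper78.ED Pool.Agent.DH

theorem SBO : SBO_stmt := by
  intro w hw
  obtain ⟨h1, h2⟩ := hw
  have hev : ∀ x : ℝ, (x < 1 / 2 ∨ 64 < x) → w =ᶠ[nhds x] (fun _ => (0 : ℂ)) := by
    intro x hx
    rcases hx with hx | hx
    · filter_upwards [Iio_mem_nhds hx] with y hy using h2 y (Or.inl hy)
    · filter_upwards [Ioi_mem_nhds hx] with y hy using h2 y (Or.inr hy)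
  have hcs : HasCompactSupport w := by
    refine HasCompactSupport.intro (isCompact_Icc (a := (1 / 2 : ℝ)) (b := 64)) ?_
    intro x hx
    apply h2 x
    by_contra hcon
    push Not at hcon
    exact hx ⟨hcon.1, hcon.2⟩
  have hcof : ContDiff ℝ (⊤ : ℕ∞) (fun x : ℝ => (x : ℂ)) := Complex.ofRealCLM.contDiff
  refine ⟨⟨(contDiff_infty_iff_deriv.1 h1).2, fun x hx => ?_⟩,
    ⟨hcof.mul h1, fun x hx => by simp only [h2 x hx, mul_zero]⟩, ⟨?_, fun x hx => by
      simp only [h2 x hx, zero_div]⟩, ?_, ?_⟩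
  · rw [(hev x hx).deriv_eq]
    exact deriv_const x 0
  · rw [contDiff_iff_contDiffAt]
    intro x
    by_cases hx : x = 0
    · have h3 : (fun x : ℝ => w x / (x : ℂ)) =ᶠ[nhds x] (fun _ => (0 : ℂ)) := by
        filter_upwards [hev x (Or.inl (by rw [hx]; norm_num))] with y hy
        rw [hy, zero_div]
      exact contDiffAt_const.congr_of_eventuallyEq h3
    · have hx' : ((x : ℝ) : ℂ) ≠ 0 := by exact_mod_cast hx
      have h4 : ContDiffAt ℝ (⊤ : ℕ∞) (fun y : ℝ => ((y : ℂ))⁻¹) x :=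
        (hcof.contDiffAt (x := x)).inv hx'
      have h5 : (fun x : ℝ => w x / (x : ℂ)) = fun x : ℝ => w x * ((x : ℂ))⁻¹ := by
        funext y
        rw [div_eq_mul_inv]
      rw [h5]
      exact (h1.contDiffAt (x := x)).mul h4
  · exact h1.continuous.integrable_of_hasCompactSupport hcs
  · obtain ⟨C, hC⟩ := h1.continuous.bounded_above_of_compact_support hcs
    exact ⟨C, le_trans (norm_nonneg _) (hC 0), hC⟩

end Pool.Agent.ZD
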