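import Pool.Agent.helper90.ZD.SpecB

set_option autoImplicit false

open Complex MeasureTheory

namespace Pool.Agent.ZD

open Pool.Agent.helper84.DM Pool.Agent.helper78.ED Pool.Agent.DH

theorem BM1_RR (Z : Finset ℂ) (n m j : ℕ) (hj : j ≠ 0) :
    RR Z (fun _ => 1) (n * j) (m * j) = RR Z (fun _ => 1) n m := by
  unfold RR
  refine Finset.sum_congr rfl fun ρ _ => ?_
  push_cast
  rw [natCast_mul_natCast_cpow, natCast_mul_natCast_cpow]
  have h : (j : ℂ) ^ (-((ρ.im : ℂ) * I)) * (j : ℂ) ^ ((ρ.im : ℂ) * I) = 1 := by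
    rw [← Complex.cpow_add _ _ (by exact_mod_cast hj)]
    simp
  linear_combination ((n : ℂ) ^ (-((ρ.im : ℂ) * I)) * (m : ℂ) ^ ((ρ.im : ℂ) * I)) * h

theorem BM1_key (Z : Finset ℂ) (Y L q : ℕ) (D : ℝ) (B : Finset ℕ)
    (hqL : Y * q ≤ L) (hLq : L < Y * (q + 1)) (hB : ∀ n ∈ B, Y ≤ n ∧ n ≤ 2 * Y)
    (hD : ∀ k ∈ IL L, d k ≤ D) :
    (3 * q : ℝ) * ∑ n ∈ B, ∑ m ∈ B, ‖RR Z (fun _ => 1) n m‖ ^ 2 ≤ D * QQ Z L := by
  classical
  have hF0 : ∀ x y, 0 ≤ ‖RR Z (fun _ => 1) x y‖ ^ 2 := fun x y => by positivity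
  have hmem : ∀ n ∈ B, ∀ j ∈ Finset.Ioc q (4 * q), n * j ∈ IL L := by
    intro n hn j hj
    obtain ⟨h1, h2⟩ := hB n hn
    rw [Finset.mem_Ioc] at hj
    obtain ⟨h3, h4⟩ := hj
    unfold IL
    rw [Finset.mem_Ioc]
    constructor
    · calc L < Y * (q + 1) := hLq
        _ ≤ n * j := Nat.mul_le_mul h1 h3
    · calc n * j ≤ (2 * Y) * (4 * q) := Nat.mul_le_mul h2 h4
        _ = 8 * (Y * q) := by ring
        _ ≤ 8 * L := Nat.mul_le_mul_left 8 hqL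
  have e1 : (3 * q : ℝ) * ∑ n ∈ B, ∑ m ∈ B, ‖RR Z (fun _ => 1) n m‖ ^ 2 =
      ∑ t ∈ (B ×ˢ B) ×ˢ Finset.Ioc q (4 * q),
        ‖RR Z (fun _ => 1) (t.1.1 * t.2) (t.1.2 * t.2)‖ ^ 2 := by
    rw [Finset.sum_product, Finset.sum_product, Finset.mul_sum]
    refine Finset.sum_congr rfl fun n _ => ?_
    rw [Finset.mul_sum]
    refine Finset.sum_congr rfl fun m _ => ?_
    have : ∀ j ∈ Finset.Ioc q (4 * q), ‖RR Z (fun _ => 1) (n * j) (m * j)‖ ^ 2 =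
        ‖RR Z (fun _ => 1) n m‖ ^ 2 := by
      intro j hj
      rw [Finset.mem_Ioc] at hj
      rw [BM1_RR Z n m j (by omega)]
    dsimp only
    rw [Finset.sum_congr rfl this, Finset.sum_const, Nat.card_Ioc, nsmul_eq_mul]
    have : 4 * q - q = 3 * q := by omega
    rw [this]
    push_cast
    ring
  have hmaps : ∀ t ∈ (B ×ˢ B) ×ˢ Finset.Ioc q (4 * q),
      (t.1.1 * t.2, t.1.2 * t.2) ∈ IL L ×ˢ IL L := by
    intro t ht
    rw [Finset.mem_product, Finset.mem_product] at ht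
    rw [Finset.mem_product]
    exact ⟨hmem _ ht.1.1 _ ht.2, hmem _ ht.1.2 _ ht.2⟩
  rw [e1, ← Finset.sum_fiberwise_of_maps_to hmaps]
  unfold QQ
  rw [← Finset.sum_product', Finset.mul_sum]
  refine Finset.sum_le_sum fun p hp => ?_
  rw [Finset.mem_product] at hp
  have e2 : ∀ t ∈ ((B ×ˢ B) ×ˢ Finset.Ioc q (4 * q)).filter
      (fun t => (t.1.1 * t.2, t.1.2 * t.2) = p),
      ‖RR Z (fun _ => 1) (t.1.1 * t.2) (t.1.2 * t.2)‖ ^ 2 =
        ‖RR Z (fun _ => 1) p.1 p.2‖ ^ 2 := by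
    intro t ht
    rw [Finset.mem_filter] at ht
    rw [← ht.2]
  rw [Finset.sum_congr rfl e2, Finset.sum_const, nsmul_eq_mul]
  refine mul_le_mul_of_nonneg_right ?_ (hF0 _ _)
  refine le_trans ?_ (hD p.1 hp.1)
  unfold d
  have hp1 : p.1 ≠ 0 := by
    have := hp.1
    unfold IL at this
    rw [Finset.mem_Ioc] at this
    omega
  have : (((B ×ˢ B) ×ˢ Finset.Ioc q (4 * q)).filter
      (fun t => (t.1.1 * t.2, t.1.2 * t.2) = p)).card ≤ p.1.divisors.card := by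
    refine Finset.card_le_card_of_injOn (fun t => t.2) ?_ ?_
    · intro t ht
      have ht := Finset.mem_filter.1 (Finset.mem_coe.1 ht)
      refine Finset.mem_coe.2 (Nat.mem_divisors.2 ⟨?_, hp1⟩)
      rw [← ht.2]
      exact Dvd.intro_left _ rfl
    · intro s hs t ht hst
      have hs := Finset.mem_filter.1 (Finset.mem_coe.1 hs)
      have ht := Finset.mem_filter.1 (Finset.mem_coe.1 ht)
      have hst : s.2 = t.2 := hst
      obtain ⟨⟨n, m⟩, j⟩ := s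
      obtain ⟨⟨n', m'⟩, j'⟩ := t
      dsimp only at hst hs ht
      subst hst
      have hj : 0 < j := by
        have := (Finset.mem_product.1 hs.1).2
        rw [Finset.mem_Ioc] at this
        dsimp only at this
        omega
      have h1 := hs.2.trans ht.2.symm
      rw [Prod.mk.injEq] at h1
      have h2 := Nat.eq_of_mul_eq_mul_right hj h1.1
      have h3 := Nat.eq_of_mul_eq_mul_right hj h1.2
      rw [h2, h3]
  exact_mod_cast this

theorem BM1_id (hEXPN : EXPN_stmt) (W : Finset ℝ) (A : Finset ℕ) (h0 : 0 ∉ A) :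
    ∑ t ∈ W, ∑ t' ∈ W, ‖PL A (t - t')‖ ^ 2 =
      ∑ n ∈ A, ∑ m ∈ A, ‖RR (W.image fun t : ℝ => ((t : ℝ) : ℂ) * I) (fun _ => 1) n m‖ ^ 2 := by
  have h1 := hEXPN (W.image fun t : ℝ => ((t : ℝ) : ℂ) * I) (fun _ => 1) A A
    (fun _ => 1) (fun _ => 1) h0 h0
  simp only [one_mul, mul_one, map_one, Complex.ofReal_one] at h1
  have hinj : ∀ x ∈ W, ∀ y ∈ W, ((x : ℝ) : ℂ) * I = ((y : ℝ) : ℂ) * I → x = y := by
    intro x _ y _ hxy
    have := mul_right_cancel₀ I_ne_zero hxy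
    exact_mod_cast this
  have h2 : ((∑ n ∈ A, ∑ m ∈ A,
      ‖RR (W.image fun t : ℝ => ((t : ℝ) : ℂ) * I) (fun _ => 1) n m‖ ^ 2 : ℝ) : ℂ) =
      ((∑ t ∈ W, ∑ t' ∈ W, ‖PL A (t - t')‖ ^ 2 : ℝ) : ℂ) := by
    rw [h1, Finset.sum_image hinj, Complex.ofReal_sum]
    refine Finset.sum_congr rfl fun t _ => ?_
    rw [Finset.sum_image hinj, Complex.ofReal_sum]
    refine Finset.sum_congr rfl fun t' _ => ?_
    have e1 : (((t : ℝ) : ℂ) * I).im = t := by simp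
    have e2 : (((t' : ℝ) : ℂ) * I).im = t' := by simp
    rw [e1, e2]
    unfold PL
    rw [Complex.mul_conj']
    push_cast
    rfl
  exact_mod_cast h2.symm

theorem BM1 (hBQ1 : BQ1_stmt) (hEXPN : EXPN_stmt) : BM1_stmt := by
  classical
  intro W Y L D hY hYL hD
  rw [BM1_id hEXPN W (Finset.Ioc Y (2 * Y)) (by rw [Finset.mem_Ioc]; omega), hBQ1 W L]
  set Z : Finset ℂ := W.image fun t : ℝ => ((t : ℝ) : ℂ) * I with hZ
  have hF0 : ∀ x y, 0 ≤ ‖RR Z (fun _ => 1) x y‖ ^ 2 := fun x y => by positivity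
  have hS0 : 0 ≤ ∑ n ∈ Finset.Ioc Y (2 * Y), ∑ m ∈ Finset.Ioc Y (2 * Y),
      ‖RR Z (fun _ => 1) n m‖ ^ 2 :=
    Finset.sum_nonneg fun n _ => Finset.sum_nonneg fun m _ => hF0 n m
  have hQ0 : 0 ≤ QQ Z L := Finset.sum_nonneg fun n _ => Finset.sum_nonneg fun m _ => hF0 n m
  have hL1 : 1 ≤ L := by omega
  have hD1 : 1 ≤ D := by
    have h1 : 2 * L ∈ IL L := by
      unfold IL
      rw [Finset.mem_Ioc]
      omega
    refine le_trans ?_ (hD _ h1)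
    unfold d
    have h2 : 0 < (2 * L).divisors.card :=
      Finset.card_pos.2 (Nat.nonempty_divisors.2 (by omega))
    exact_mod_cast h2
  have hYR : (0 : ℝ) ≤ Y := Nat.cast_nonneg Y
  rcases Nat.lt_or_ge L Y with hLY | hLY
  · have hsub : Finset.Ioc Y (2 * Y) ⊆ IL L := by
      intro k hk
      rw [Finset.mem_Ioc] at hk
      unfold IL
      rw [Finset.mem_Ioc]
      omega
    have h1 : ∑ n ∈ Finset.Ioc Y (2 * Y), ∑ m ∈ Finset.Ioc Y (2 * Y),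
        ‖RR Z (fun _ => 1) n m‖ ^ 2 ≤ QQ Z L := by
      unfold QQ
      refine le_trans (Finset.sum_le_sum fun n _ =>
        Finset.sum_le_sum_of_subset_of_nonneg hsub fun m _ _ => hF0 n m) ?_
      exact Finset.sum_le_sum_of_subset_of_nonneg hsub fun n _ _ =>
        Finset.sum_nonneg fun m _ => hF0 n m
    have h2 : (L : ℝ) ≤ Y := by exact_mod_cast hLY.le
    calc (L : ℝ) * ∑ n ∈ Finset.Ioc Y (2 * Y), ∑ m ∈ Finset.Ioc Y (2 * Y),
          ‖RR Z (fun _ => 1) n m‖ ^ 2 ≤ (Y : ℝ) * QQ Z L :=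
          mul_le_mul h2 h1 hS0 hYR
      _ = (Y : ℝ) * 1 * QQ Z L := by ring
      _ ≤ (Y : ℝ) * D * QQ Z L :=
          mul_le_mul_of_nonneg_right (mul_le_mul_of_nonneg_left hD1 hYR) hQ0
      _ ≤ 4 * Y * D * QQ Z L := by
          have : 0 ≤ (Y : ℝ) * D * QQ Z L := by positivity
          nlinarith
  · obtain ⟨q, hq⟩ : ∃ q, q = L / Y := ⟨_, rfl⟩
    have hq1 : 1 ≤ q := by rw [hq]; exact Nat.div_pos hLY hY
    have hqL : Y * q ≤ L := by rw [hq]; exact Nat.mul_div_le L Y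
    have hLq : L < Y * (q + 1) := by rw [hq]; exact Nat.lt_mul_div_succ L hY
    have key := BM1_key Z Y L q D (Finset.Ioc Y (2 * Y)) hqL hLq (fun n hn => by
      rw [Finset.mem_Ioc] at hn
      omega) hD
    have hLr : (L : ℝ) ≤ (Y : ℝ) * (3 * q) := by
      have : L ≤ Y * (3 * q) := by
        calc L ≤ Y * (q + 1) := hLq.le
          _ ≤ Y * (3 * q) := Nat.mul_le_mul_left Y (by omega)
      exact_mod_cast this
    have h0 : 0 ≤ (Y : ℝ) * D * QQ Z L := by positivity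
    calc (L : ℝ) * ∑ n ∈ Finset.Ioc Y (2 * Y), ∑ m ∈ Finset.Ioc Y (2 * Y),
          ‖RR Z (fun _ => 1) n m‖ ^ 2
        ≤ ((Y : ℝ) * (3 * q)) * ∑ n ∈ Finset.Ioc Y (2 * Y), ∑ m ∈ Finset.Ioc Y (2 * Y),
          ‖RR Z (fun _ => 1) n m‖ ^ 2 :=
          mul_le_mul_of_nonneg_right hLr hS0
      _ = (Y : ℝ) * ((3 * q : ℝ) * ∑ n ∈ Finset.Ioc Y (2 * Y), ∑ m ∈ Finset.Ioc Y (2 * Y),
          ‖RR Z (fun _ => 1) n m‖ ^ 2) := by ring
      _ ≤ (Y : ℝ) * (D * QQ Z L) := mul_le_mul_of_nonneg_left key hYR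
      _ ≤ 4 * Y * D * QQ Z L := by nlinarith

end Pool.Agent.ZD
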